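import Pool.Agent.TInf.FamDefs

/-!
# Families of elliptic curves over an arbitrary base: definitions

A base `D : Base k r` is a set `D.P` of points over `k`, a set `D.Q` of points over `Om k`, with the
coefficients of the `r` cubics `y ² = x ³ - 3 α_i x + B_i`, and with the relation `D.At v S s` that `S` has the
value `s` at the place `v` (affine coordinates). `D.Bad v S i` means that at the place `v` the point
`S` tends to a point where the discriminant with the index `i` is zero.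
-/

set_option autoImplicit false

noncomputable section

namespace Pool.Agent.KFam

open Pool.Agent.ZCyc Pool.Agent.TInf Polynomial
open Pool.Agent.VFP (Om tt)

universe u

/-- the base -/
structure Base (k : Type u) [Field k] (r : ℕ) where
  /-- the points over `k` -/
  P : Type u
  /-- the points over `Om k` -/
  Q : Type u
  /-- the coefficients `α` -/
  al : Fin r → P → k
  /-- the coefficients `B` -/
  be : Fin r → P → k
  /-- the coefficients `α` over `Om k` -/
  alQ : Fin r → Q → Om k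
  /-- the coefficients `B` over `Om k` -/
  beQ : Fin r → Q → Om k
  /-- the point has this value at the place -/
  At : Place k (Om k) → Q → P → Prop
  /-- the point tends to a point with singular cubic -/
  Bad : Place k (Om k) → Q → Fin r → Prop
  /-- the constant point -/
  cst : P → Q
  at_al : ∀ (v : Place k (Om k)) (S : Q) (s : P), At v S s → ∀ i, v.At (alQ i S) (al i s)
  at_be : ∀ (v : Place k (Om k)) (S : Q) (s : P), At v S s → ∀ i, v.At (beQ i S) (be i s)
  cst_at : ∀ (v : Place k (Om k)) (s : P), At v (cst s) s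
  cst_al : ∀ (s : P) (i : Fin r), alQ i (cst s) = algebraMap k (Om k) (al i s)
  cst_be : ∀ (s : P) (i : Fin r), beQ i (cst s) = algebraMap k (Om k) (be i s)

variable {k : Type u} [Field k] {r n : ℕ}

/-- the values of `α` -/
def Base.ea (D : Base k r) (s : Fin n → D.P) (i : Fin r) (j : Fin n) : k := D.al i (s j)

/-- the values of `B` -/
def Base.eb (D : Base k r) (s : Fin n → D.P) (i : Fin r) (j : Fin n) : k := D.be i (s j)

/-- the values of `α` over `Om k` -/
def Base.EA (D : Base k r) (S : Fin n → D.Q) (i : Fin r) (j : Fin n) : Om k := D.alQ i (S j)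

/-- the values of `B` over `Om k` -/
def Base.EB (D : Base k r) (S : Fin n → D.Q) (i : Fin r) (j : Fin n) : Om k := D.beQ i (S j)

/-- all points are on the curves -/
def Base.On (D : Base k r) (s : Fin n → D.P) (p : Fin r → Fin n → EPt k) : Prop :=
  ∀ i j, EOn (D.ea s i j) (D.eb s i j) (p i j)

/-- all points are on the curves, over `Om k` -/
def Base.OnQ (D : Base k r) (S : Fin n → D.Q) (P : Fin r → Fin n → EPt (Om k)) : Prop :=
  ∀ i j, EOn (D.EA S i j) (D.EB S i j) (P i j)

/-- A system of classes of `n`-tuples of points of the family. -/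
structure SysB (D : Base k r) (n : ℕ) (W : Type*) [AddCommGroup W] [Module ℚ W] where
  /-- the class -/
  F : (Fin n → D.P) → (Fin r → Fin n → EPt k) → W
  /-- the tuple over `Om k` has a value with this class -/
  Val : Place k (Om k) → (Fin n → D.Q) → (Fin r → Fin n → EPt (Om k)) → W → Prop
  perm : ∀ (s : Fin n → D.P) (p : Fin r → Fin n → EPt k) (π : Equiv.Perm (Fin n)),
    F (s ∘ π) (fun i => p i ∘ π) = (((Equiv.Perm.sign π : ℤˣ) : ℤ) ^ r) • F s p
  odd : ∀ (s : Fin n → D.P) (p : Fin r → Fin n → EPt k) (i : Fin r) (j : Fin n) (x y : k),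
    p i j = some (x, y) →
    F s (Function.update p i (Function.update (p i) j (some (x, -y)))) = -F s p
  inf : ∀ (s : Fin n → D.P) (p : Fin r → Fin n → EPt k) (i : Fin r) (j : Fin n), p i j = none →
    F s p = 0
  off : ∀ (s : Fin n → D.P) (p : Fin r → Fin n → EPt k), ¬ D.On s p → F s p = 0
  fin : ∀ (v : Place k (Om k)) (S : Fin n → D.Q) (P : Fin r → Fin n → EPt (Om k)),
    D.OnQ S P → ∀ (s : Fin n → D.P) (p : Fin r → Fin n → EPt k), (∀ j, D.At v (S j) (s j)) →
    (∀ i j, EVal v (P i j) (p i j)) → Val v S P (F s p)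
  pole : ∀ (v : Place k (Om k)) (S : Fin n → D.Q) (P : Fin r → Fin n → EPt (Om k)),
    D.OnQ S P → ∀ (i : Fin r) (j : Fin n) (c : D.P), D.At v (S j) c → EVal v (P i j) none →
    Val v S P 0
  sing : ∀ (v : Place k (Om k)) (S : Fin n → D.Q) (P : Fin r → Fin n → EPt (Om k)),
    D.OnQ S P → ∀ (i : Fin r) (j : Fin n), D.Bad v (S j) i → Val v S P 0
  bridge : ∀ {I : Type} [Fintype I] (w : I → ℚ) (S : I → Fin n → D.Q)
    (P : I → Fin r → Fin n → EPt (Om k)), (∀ x, D.OnQ (S x) (P x)) → ∀ (c₀ c₁ : k) (C₀ C₁ : W),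
    (∀ v : Place k (Om k), v.At (tt k) c₀ → ∃ C : I → W, (∀ x, Val v (S x) (P x) (C x)) ∧
      ∑ x, w x • C x = C₀) →
    (∀ v : Place k (Om k), v.At (tt k) c₁ → ∃ C : I → W, (∀ x, Val v (S x) (P x) (C x)) ∧
      ∑ x, w x • C x = C₁) → C₀ = C₁

/-- For every fibre index the numbers `B ² / α ³` are distinct at the `s j`, or they are the same at
all points of the base. -/
structure Base.Gen (D : Base k r) (s : Fin n → D.P) : Prop where
  nd : ∀ i, NdU (D.ea s i) (D.eb s i)
  iso : ∀ i, (∀ j j', j ≠ j' → D.eb s i j ^ 2 * D.ea s i j' ^ 3 ≠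
    D.eb s i j' ^ 2 * D.ea s i j ^ 3) ∨
    ∃ c : k, c ≠ 0 ∧ (∀ x, D.be i x ^ 2 = c * D.al i x ^ 3) ∧
      ∀ X, D.beQ i X ^ 2 = algebraMap k (Om k) c * D.alQ i X ^ 3

/-- Deformations of the tuple `s`, with the parameters `z ∈ k ^ ρ`. The product of the values of
`α_i`, of `b_i = -B_i / 2` and of `b_i ² - θ_j (b_i ² - α_i ³)` are polynomials in `z` and the
variable `τ`. -/
structure CurveFam (D : Base k r) (d : Fin r → ℕ) (s : Fin n → D.P) where
  /-- the number of parameters -/
  ρ : ℕ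
  /-- the norm of `α_i` -/
  nα : Fin r → MvPolynomial (Fin ρ) k[X]
  /-- the norm of `b_i` -/
  nb : Fin r → MvPolynomial (Fin ρ) k[X]
  /-- the norm of `b_i ² - θ_j (b_i ² - α_i ³)` -/
  nθ : Fin r → Fin n → MvPolynomial (Fin ρ) k[X]
  /-- the values of `θ` -/
  θ : Fin n → k
  inj : Function.Injective θ
  ne : ∀ j, θ j ≠ 0
  dα : ∀ i (z : Fin ρ →₀ ℕ), ((nα i).coeff z).natDegree ≤ 2 * d i
  db : ∀ i (z : Fin ρ →₀ ℕ), ((nb i).coeff z).natDegree ≤ 3 * d i
  dθ : ∀ i j (z : Fin ρ →₀ ℕ), ((nθ i j).coeff z).natDegree ≤ 6 * d i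
  zα : ∀ i (z : Fin ρ → k), ((nα i).eval fun m => C (z m)).eval 0 = ∏ j, D.ea s i j
  zb : ∀ i (z : Fin ρ → k), ((nb i).eval fun m => C (z m)).eval 0 = ∏ j, (-D.eb s i j / 2)
  zθ : ∀ i j (z : Fin ρ → k), ((nθ i j).eval fun m => C (z m)).eval 0 =
    ∏ l, ((-D.eb s i l / 2) ^ 2 - θ j * ((-D.eb s i l / 2) ^ 2 - D.ea s i l ^ 3))
  cα : ∀ i, (nα i).eval 0 = C (∏ j, D.ea s i j)
  cb : ∀ i, (nb i).eval 0 = C (∏ j, (-D.eb s i j / 2))
  cθ : ∀ i j, (nθ i j).eval 0 =
    C (∏ l, ((-D.eb s i l / 2) ^ 2 - θ j * ((-D.eb s i l / 2) ^ 2 - D.ea s i l ^ 3)))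
  /-- the value at `δ` of the form at `τ = 0` -/
  u : k
  /-- the value at `δ` of the direction `z` -/
  h : (Fin ρ → k) → k
  u_ne : u ≠ 0
  pts : ∀ z : Fin ρ → k, z ≠ 0 → ∀ τ : Om k, Transcendental k τ →
    (∃ v : Place k (Om k), v.At τ 0) → ∃ S : Fin n → D.Q,
    (∀ i, ∏ j, D.EA S i j = aeval τ ((nα i).eval fun m => C (z m))) ∧
    (∀ i, ∏ j, (-D.EB S i j / 2) = aeval τ ((nb i).eval fun m => C (z m))) ∧
    (∀ i j, ∏ l, ((-D.EB S i l / 2) ^ 2 - algebraMap k (Om k) (θ j) *
      ((-D.EB S i l / 2) ^ 2 - D.EA S i l ^ 3)) = aeval τ ((nθ i j).eval fun m => C (z m))) ∧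
    (∀ v : Place k (Om k), v.At τ 0 → ∃ π : Equiv.Perm (Fin n), ∀ j, D.At v (S j) (s (π j))) ∧
    ∀ v : Place k (Om k), ((∃ τ₁ : k, v.At τ τ₁ ∧ u + τ₁ * h z = 0) ∨
      (τ ∉ v.ring ∧ h z = 0)) → ∃ j i, D.Bad v (S j) i

open Classical in
/-- The class of the configurations with the states `M i` and the products `P i`; it is zero if there
are none. -/
def Psi {D : Base k r} {W : Type*} [AddCommGroup W] [Module ℚ W] (Y : SysB D n W) (ζ : k)
    (s : Fin n → D.P) (M : Fin r → Mq k) (P : Fin r → k) (l : Fin r → ZMod 3) : W :=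
  if h : ∃ cw : Fin r → Cfg k n × (Fin n → k),
      ∀ i, Rz (D.ea s i) (D.eb s i) (M i) (P i) (cw i).1 (cw i).2 then
    (∏ i, sgz (h.choose i).1.ord) • MSl (Y.F s) ζ (D.ea s)
      (fun i => (h.choose i).1.side (D.eb s i)) (fun i => (h.choose i).2) l
  else 0

/-- The class for the points `(_, Θ i)` of the curves of the closing sides, and the `W i`. -/
def GG {D : Base k r} {W : Type*} [AddCommGroup W] [Module ℚ W] (Y : SysB D n W) (ζ : k)
    (s : Fin n → D.P) (M : Fin r → Mq k) (Θ w : Fin r → k) (l : Fin r → ZMod 3) : W :=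
  Psi Y ζ s (fun i => (M i).fr ((M i).cT (Θ i) (w i))) w l

open Classical in
/-- The points of the family with the states `M' i`, the square roots `β' i` and the products `P' i`
(all points are at infinity if there are no configurations). -/
def Pts (ζ : k) (D : Base k r) (S : Fin n → D.Q) (M' : Fin r → Mq (Om k))
    (P' : Fin r → Om k) (β' : Fin r → Fin n → Om k) (a : Fin r → Fin n → ZMod 3) :
    Fin r → Fin n → EPt (Om k) :=
  if h : ∃ Tw : Fin r → (Fin n → Om k) × (Fin n → Om k), ∀ i,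
      Rw (D.EA S i) (D.EB S i) (M' i) (P' i) ⟨1, β' i, (Tw i).1⟩ (Tw i).2 then
    fun i j => epoint (algebraMap k (Om k) ζ) (D.EA S i j)
      ((⟨1, β' i, (h.choose i).1⟩ : Cfg (Om k) n).side (D.EB S i) j) ((h.choose i).2 j) (a i j)
  else fun _ _ => none

end Pool.Agent.KFam
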