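import Pool.Agent.KFam.GenZero
import Pool.Agent.TInf.MultiZero
import Pool.Agent.TInf.Generic

/-!
# A class function for an arbitrary base is zero on general tuples
-/

set_option autoImplicit false

noncomputable section

namespace Pool.Agent.KFam

open Pool.Agent.ZCyc Pool.Agent.TInf Polynomial
open Pool.Agent.VFP (Om tt)

universe u

variable {k : Type u} [Field k] [IsAlgClosed k] [CharZero k] {r n : ℕ} {D : Base k r}
  {W : Type*} [AddCommGroup W] [Module ℚ W]

/-- The class is zero for all points of the curves over a general tuple with deformations with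
sufficiently many parameters. -/
theorem SysB.zero_gen (Y : SysB D n W) {d : Fin r → ℕ} {n₀ : ℕ} (hd : ∑ i, d i = 2 * n₀)
    (hn₀ : 0 < n₀) (hn : 0 < n) {s : Fin n → D.P}
    (hs : D.Gen s) (F : CurveFam D d s) (hρ₀ : n₀ ≤ F.ρ) (p : Fin r → Fin n → EPt k) :
    Y.F s p = 0 := by
  by_cases hp : D.On s p
  swap
  · exact Y.off s p hp
  obtain ⟨ζ, hζ⟩ := HasEnoughRootsOfUnity.exists_primitiveRoot k 3
  have hN : ∀ i, NdU (D.ea s i) (D.eb s i) := hs.nd
  have hadm := fun i => exists_adm (hN i) hn
  choose β hβ using hadm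
  refine multi_zero (Y.multi s) hn hζ (fun i j => -D.eb s i j / 2 + β i j)
    (fun i j => -D.eb s i j / 2 - β i j) (fun i j => by ring) (fun i j => ?_)
    (fun i j => (hN i).hα j) (fun i j => ?_) ?_ p hp
  · have h4 := (hβ i).1 j
    linear_combination 4 * h4
  · intro h0
    have h4 := (hβ i).1 j
    apply (hN i).disc j
    linear_combination 4 * h0 + 4 * h4
  · intro T w hT hw l
    have hg : ∀ i, (⟨1, β i, T i⟩ : Cfg k n).Good (D.ea s i) (D.eb s i) := fun i =>
      ⟨(hβ i).1, fun j => hT i j⟩
    exact gen_zero Y hd hn₀ hn hζ hs F hρ₀ (c := fun i => ⟨1, β i, T i⟩) hg hβ hw l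

end Pool.Agent.KFam
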