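import Pool.Agent.KFam.Defs

/-!
# The square roots over `Om k`
-/

set_option autoImplicit false

noncomputable section

namespace Pool.Agent.KFam

open Pool.Agent.ZCyc Pool.Agent.TInf Polynomial
open Pool.Agent.VFP (Om tt)

universe u

variable {k : Type u} [Field k] [IsAlgClosed k] [CharZero k] {r n : ℕ}

/-- The square roots over `Om k`: in the isotrivial case `B ² = c α ³` take `γ B`, `γ ² c = 1`. -/
theorem exists_beta {D : Base k r} {s : Fin n → D.P} (hG : D.Gen s) (i₀ : Fin r)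
    (S : Fin n → D.Q) :
    ∃ β' : Fin n → Om k, (∀ j, β' j ^ 2 = D.EA S i₀ j ^ 3) ∧
      ∀ (v : Place k (Om k)) (π : Equiv.Perm (Fin n)), (∀ j, D.At v (S j) (s (π j))) →
        ∀ β : Fin n → k, (∀ j, v.At (β' j) (β j)) →
          Adm (D.ea (s ∘ π) i₀) (D.eb (s ∘ π) i₀) β := by
  have h := hG.iso i₀
  have key : ∀ (β' : Fin n → Om k), (∀ j, β' j ^ 2 = D.EA S i₀ j ^ 3) →
      ∀ (v : Place k (Om k)) (π : Equiv.Perm (Fin n)), (∀ j, D.At v (S j) (s (π j))) →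
        ∀ β : Fin n → k, (∀ j, v.At (β' j) (β j)) → ∀ j, β j ^ 2 = D.ea (s ∘ π) i₀ j ^ 3 := by
    intro β' h1 v π hS β hβ j
    have h2 : v.At (β' j ^ 2) (β j ^ 2) := (hβ j).pow 2
    rw [h1 j] at h2
    exact h2.unique ((D.at_al v _ _ (hS j) i₀).pow 3)
  rcases h with h | ⟨c, hc, -, h⟩
  · have hsq : ∀ j, ∃ b : Om k, b ^ 2 = D.EA S i₀ j ^ 3 := fun j =>
      IsAlgClosed.exists_pow_nat_eq _ (by norm_num)
    choose β' hβ' using hsq
    refine ⟨β', hβ', fun v π hS β hβ => ⟨key β' hβ' v π hS β hβ, Or.inl ?_⟩⟩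
    intro i j hij
    exact h (π i) (π j) fun h0 => hij (π.injective h0)
  · obtain ⟨γ, hγ⟩ : ∃ γ : k, γ ^ 2 = c⁻¹ := IsAlgClosed.exists_pow_nat_eq _ (by norm_num)
    have hβ' : ∀ j, (algebraMap k (Om k) γ * D.EB S i₀ j) ^ 2 = D.EA S i₀ j ^ 3 := by
      intro j
      have h1 : D.EB S i₀ j ^ 2 = algebraMap k (Om k) c * D.EA S i₀ j ^ 3 := h (S j)
      rw [mul_pow, h1, ← map_pow, hγ, ← mul_assoc, ← map_mul, inv_mul_cancel₀ hc, map_one, one_mul]
    refine ⟨fun j => algebraMap k (Om k) γ * D.EB S i₀ j, hβ', fun v π hS β hβ =>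
      ⟨key _ hβ' v π hS β hβ, Or.inr ?_⟩⟩
    have hβ2 : ∀ j, β j = γ * D.eb (s ∘ π) i₀ j := fun j =>
      (hβ j).unique ((Place.at_const γ).mul (D.at_be v _ _ (hS j) i₀))
    intro i j
    rw [hβ2 i, hβ2 j]
    ring

end Pool.Agent.KFam
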