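import Pool.Agent.KFam.FamPts
import Pool.Agent.KFam.PsiFull
import Pool.Agent.TInf.FamStart

/-!
# Values of the families at the start
-/

set_option autoImplicit false

noncomputable section

namespace Pool.Agent.KFam

open Pool.Agent.ZCyc Pool.Agent.TInf Polynomial
open Pool.Agent.VFP (Om tt)

universe u

variable {k : Type u} [Field k] [IsAlgClosed k] [CharZero k] {r n : ℕ} {D : Base k r}
  {W : Type*} [AddCommGroup W] [Module ℚ W]

omit [IsAlgClosed k] [CharZero k] in
private theorem mat_uniq {v : Place k (Om k)} {M' : Mq (Om k)} {M N : Mq k} (h : MAt v M' M)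
    (h' : MAt v M' N) : M = N :=
  Mq.ext (h.a.unique h'.a) (h.b.unique h'.b) (h.c.unique h'.c) (h.t.unique h'.t)

omit [IsAlgClosed k] in
private theorem half_at {v : Place k (Om k)} {x : Om k} {c : k} (h : v.At x c) :
    v.At (x / 2) (c / 2) := by
  have h2 : v.At (2 : Om k) (2 : k) := by
    have := Place.at_const (v := v) (2 : k)
    rwa [map_ofNat] at this
  exact h.div h2 two_ne_zero

omit [IsAlgClosed k] in
private theorem V_at {v : Place k (Om k)} {s' : Side (Om k)} {s : Side k} (h : SAt v s' s)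
    (hs : s.Good) : v.At s'.V s.V := by
  have h2 : v.At (2 : Om k) (2 : k) := by
    have := Place.at_const (v := v) (2 : k)
    rwa [map_ofNat] at this
  unfold Side.V
  exact ((h.T.add h.p).mul (h.T.add h.m)).div (h2.mul h.T) (mul_ne_zero two_ne_zero hs.1)

omit [IsAlgClosed k] [CharZero k] in
private theorem mem_of_six (v : Place k (Om k)) {y : Om k} (h : y ^ 6 ∈ v.ring) : y ∈ v.ring := by
  rcases v.ring.mem_or_inv_mem y with h1 | h1
  · exact h1
  · by_cases hy0 : y = 0
    · rw [hy0]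
      exact zero_mem _
    · have h2 : y = y ^ 6 * y⁻¹ ^ 5 := by field_simp
      rw [h2]
      exact mul_mem h (pow_mem h1 5)

/-- if `w` is a unit at `v` then the coordinate `T` has a good value -/
private theorem good_value {v : Place k (Om k)} {s' : Side (Om k)} {p m : k} (hg : s'.Good)
    (hp : v.At s'.p p) (hm : v.At s'.m m) (hD : p * m ≠ 0) {w : Om k} (hw : w ^ 6 = s'.V)
    (h1 : w ∈ v.ring) (h2 : w⁻¹ ∈ v.ring) : ∃ t : k, v.At s'.T t ∧ (⟨p, m, t⟩ : Side k).Good := by
  have hDat : v.At s'.D (p * m) := hp.mul hm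
  have hD0 : s'.D ≠ 0 := by
    intro h0
    rw [h0] at hDat
    exact hD (hDat.unique (Place.at_zero_iff.2 v.vanishes_zero))
  have hU := side_unit v hg hp.mem hm.mem hD0 (hDat.inv hD).mem
    (by rw [← hw]; exact pow_mem h1 6)
    (by rw [← hw, ← inv_pow]; exact pow_mem h2 6)
  obtain ⟨t, ht⟩ := DCI57.exists_at v hU.T
  have key : ∀ {x : Om k} {y : k}, v.At x y → x ≠ 0 → x⁻¹ ∈ v.ring → y ≠ 0 := by
    intro x y hx hx0 hxi hy
    rw [hy, Place.at_zero_iff, Place.vanishes_iff_or] at hx
    rcases hx with h | h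
    · exact hx0 h
    · exact h hxi
  exact ⟨t, ht, key ht hg.1 hU.T', key (ht.add hp) hg.2.1 hU.Tp, key (ht.add hm) hg.2.2 hU.Tm⟩

/-- The transfer of the family to a place `v` where the `S j` have nondegenerate values `s j`.

Case A: there are no configurations over `Om k`. Then all points are at infinity, and the values are
`0` by `Y.pole`. If `Psi` were not zero, then the states `M i` would be full (`Psi_full`), and
`cfg_liftU` with `ord = 1`, `exists_Rw` would give configurations over `Om k`.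

Case B: there are configurations `⟨1, β' i, T i⟩`, `w i`, and all `T i j` have values such that
the sides are good. Then the `w i j` have values too (their sixth powers are `V`, which have nonzero
values), the values are realisations of the `M i`, `P i` (compare `MAt.push` for the states), with admissible
square roots by `hβA`; all points have values by `epoint_val`, and `Psi_eq` gives the claim
(`sgz 1 = 1`).

Case C: some `T i j` has no such value. Then `w i j` has a zero or a pole at `v`, all values are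
`0` by `epoint_inf` and `Y.pole`; `Psi` is zero, because otherwise `Psi_full` and `cfg_valueU` would give
values for all `T i j`. -/
theorem Pts_start (Y : SysB D n W) {ζ : k} (hζ : IsPrimitiveRoot ζ 3) (hn : 0 < n)
    {v : Place k (Om k)} {S : Fin n → D.Q} {s : Fin n → D.P} (hS : ∀ j, D.At v (S j) (s j))
    (hs : ∀ i, NdU (D.ea s i) (D.eb s i)) {M' : Fin r → Mq (Om k)} {M : Fin r → Mq k}
    (hst : ∀ i, IsSt (D.EA S i) (D.EB S i) (M' i)) (hM : ∀ i, MAt v (M' i) (M i))
    {P' : Fin r → Om k} {P : Fin r → k} (hP : ∀ i, v.At (P' i) (P i)) (hP0 : ∀ i, P i ≠ 0)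
    (hP6 : ∀ i, P' i ^ 6 = (M' i).V0) {β' : Fin r → Fin n → Om k}
    (hβ : ∀ i j, β' i j ^ 2 = D.EA S i j ^ 3)
    (hβA : ∀ i, ∀ β : Fin n → k, (∀ j, v.At (β' i j) (β j)) → Adm (D.ea s i) (D.eb s i) β)
    (l : Fin r → ZMod 3) :
    ∃ C : (Fin r → Fin n → ZMod 3) → W, (∀ a, Y.Val v S (Pts ζ D S M' P' β' a) (C a)) ∧
      ∑ a, (if ∀ i, ∑ j, a i j = l i then C a else 0) = Psi Y ζ s M P l := by
  classical
  have hζ3 : ζ ^ 3 = 1 := hζ.pow_eq_one
  have hα' : ∀ i j, v.At (D.EA S i j) (D.ea s i j) := fun i j => D.at_al v _ _ (hS j) i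
  have hB' : ∀ i j, v.At (D.EB S i j) (D.eb s i j) := fun i j => D.at_be v _ _ (hS j) i
  have hex : ∀ i j, ∃ b : k, v.At (β' i j) b ∧ b ^ 2 = D.ea s i j ^ 3 := fun i j =>
    exists_at_sqrt v (hβ i j) ((hα' i j).pow 3)
  choose β hβv hβs using hex
  have hA : ∀ i, Adm (D.ea s i) (D.eb s i) (β i) := fun i => hβA i (β i) (hβv i)
  by_cases h : ∃ Tw : Fin r → (Fin n → Om k) × (Fin n → Om k), ∀ i,
      Rw (D.EA S i) (D.EB S i) (M' i) (P' i) ⟨1, β' i, (Tw i).1⟩ (Tw i).2
  · -- the points
    obtain ⟨Tw, hTwe⟩ : ∃ Tw : Fin r → (Fin n → Om k) × (Fin n → Om k), Tw = h.choose := ⟨_, rfl⟩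
    have hTw : ∀ i, Rw (D.EA S i) (D.EB S i) (M' i) (P' i) ⟨1, β' i, (Tw i).1⟩ (Tw i).2 := by
      rw [hTwe]
      exact h.choose_spec
    have hPts : ∀ a, Pts ζ D S M' P' β' a = fun i j => epoint (algebraMap k (Om k) ζ)
        (D.EA S i j) ((⟨1, β' i, (Tw i).1⟩ : Cfg (Om k) n).side (D.EB S i) j) ((Tw i).2 j)
        (a i j) := by
      intro a
      rw [hTwe]
      unfold Pts
      rw [dif_pos h]
    have hpv : ∀ i j, v.At ((⟨1, β' i, (Tw i).1⟩ : Cfg (Om k) n).side (D.EB S i) j).p
        (-D.eb s i j / 2 + β i j) := fun i j => (half_at (hB' i j).neg).add (hβv i j)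
    have hmv : ∀ i j, v.At ((⟨1, β' i, (Tw i).1⟩ : Cfg (Om k) n).side (D.EB S i) j).m
        (-D.eb s i j / 2 - β i j) := fun i j => (half_at (hB' i j).neg).sub (hβv i j)
    by_cases hT : ∀ i j, ∃ t : k, v.At ((Tw i).1 j) t ∧
        (⟨-D.eb s i j / 2 + β i j, -D.eb s i j / 2 - β i j, t⟩ : Side k).Good
    · -- Case B
      choose t ht htg using hT
      obtain ⟨c, hc⟩ : ∃ c : Fin r → Cfg k n, ∀ i, c i = ⟨1, β i, t i⟩ := ⟨_, fun _ => rfl⟩
      have hcs : ∀ i j, (c i).side (D.eb s i) j =
          ⟨-D.eb s i j / 2 + β i j, -D.eb s i j / 2 - β i j, t i j⟩ := by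
        intro i j
        rw [hc]
        rfl
      have hgs : ∀ i j, ((c i).side (D.eb s i) j).Good := by
        intro i j
        rw [hcs]
        exact htg i j
      have hSA : ∀ i j, SAt v ((⟨1, β' i, (Tw i).1⟩ : Cfg (Om k) n).side (D.EB S i) j)
          ((c i).side (D.eb s i) j) := by
        intro i j
        rw [hcs]
        exact ⟨hpv i j, hmv i j, ht i j⟩
      have hVA := fun i j => V_at (hSA i j) (hgs i j)
      have hw : ∀ i j, ∃ u : k, v.At ((Tw i).2 j) u := by
        intro i j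
        refine DCI57.exists_at v (mem_of_six v ?_)
        rw [(hTw i).w6 j]
        exact (hVA i j).mem
      choose u hu using hw
      have hu6 : ∀ i j, u i j ^ 6 = ((c i).side (D.eb s i) j).V := by
        intro i j
        have h1 := (hu i j).pow 6
        rw [(hTw i).w6 j] at h1
        exact h1.unique (hVA i j)
      have hR : ∀ i, Rz (D.ea s i) (D.eb s i) (M i) (P i) (c i) (u i) := by
        intro i
        refine ⟨⟨⟨?_, hgs i⟩, ?_, hu6 i, ?_⟩, ?_⟩
        · intro j
          rw [hc]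
          exact hβs i j
        · have h1 : MAt v ((⟨1, β' i, (Tw i).1⟩ : Cfg (Om k) n).M (D.EB S i))
              ((c i).M (D.eb s i)) := by
            rw [Cfg.M_eq, Cfg.M_eq]
            refine MAt.st ?_ ?_
            · unfold Cfg.sides
              rw [List.forall₂_map_left_iff, List.forall₂_map_right_iff, List.forall₂_same]
              intro a _
              have : (c i).ord a = (1 : Equiv.Perm (Fin n)) a := by rw [hc]
              rw [this]
              exact hSA i _
            · intro x hx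
              obtain ⟨j, rfl⟩ := Cfg.mem_sides hx
              exact hgs i j
          rw [(hTw i).st] at h1
          exact mat_uniq h1 (hM i)
        · have h1 : v.At (∏ j, (Tw i).2 j) (∏ j, u i j) := Place.At.prod fun j _ => hu i j
          rw [(hTw i).prod] at h1
          exact h1.unique (hP i)
        · rw [hc]
          exact hA i
      refine ⟨fun a => Y.F s fun i j => epoint ζ (D.ea s i j) ((c i).side (D.eb s i) j)
        (u i j) (a i j), ?_, ?_⟩
      · intro a
        refine Y.fin v S _ (Pts_on hζ S M' P' β' a) s _ hS ?_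
        intro i j
        rw [hPts]
        exact epoint_val hζ3 (hα' i j) (hSA i j).p (hSA i j).m (hSA i j).T (hu i j) (hgs i j)
          (hu6 i j) (a i j)
      · rw [Psi_eq Y hζ hs hR l]
        have h1 : (∏ i, sgz (c i).ord) = 1 := by
          refine Finset.prod_eq_one fun i _ => ?_
          rw [hc]
          simp [sgz]
        rw [h1, one_smul]
        rfl
    · -- Case C
      push Not at hT
      obtain ⟨i₀, j₀, hT⟩ := hT
      have hD : (-D.eb s i₀ j₀ / 2 + β i₀ j₀) * (-D.eb s i₀ j₀ / 2 - β i₀ j₀) ≠ 0 := by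
        have h1 := (hs i₀).disc j₀
        rw [← hβs i₀ j₀] at h1
        intro h2
        apply h1
        linear_combination 4 * h2
      have hV0 : ((⟨1, β' i₀, (Tw i₀).1⟩ : Cfg (Om k) n).side (D.EB S i₀) j₀).V ≠ 0 := by
        obtain ⟨g1, g2, g3⟩ := (hTw i₀).good.2 j₀
        exact div_ne_zero (mul_ne_zero g2 g3) (mul_ne_zero two_ne_zero g1)
      have hw0 : (Tw i₀).2 j₀ ≠ 0 := by
        intro h0
        apply hV0
        rw [← (hTw i₀).w6 j₀, h0]
        norm_num
      have hwz : v.At ((Tw i₀).2 j₀) 0 ∨ (Tw i₀).2 j₀ ∉ v.ring := by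
        by_contra hcon
        push Not at hcon
        obtain ⟨g1, g2⟩ := hcon
        rw [Place.at_zero_iff, Place.vanishes_iff_or] at g1
        push Not at g1
        obtain ⟨t, ht, htg⟩ := good_value ((hTw i₀).good.2 j₀) (hpv i₀ j₀) (hmv i₀ j₀) hD
          ((hTw i₀).w6 j₀) g2 g1.2
        exact hT t ht htg
      have hPsi : Psi Y ζ s M P l = 0 := by
        by_contra hne
        have hF := Psi_full Y hζ hs hne i₀
        obtain ⟨c, hcg, -, -, hcb, hcT⟩ := cfg_valueU v (hα' i₀) (hB' i₀) (hs i₀) (hM i₀)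
          (hst i₀).deg (hst i₀).q (hst i₀).a0 hF (hTw i₀).good (hTw i₀).st (hβv i₀) (hA i₀)
        refine hT (c.T j₀) (hcT j₀) ?_
        have h1 := hcg.2 j₀
        unfold Cfg.side at h1
        rw [hcb] at h1
        exact h1
      refine ⟨fun _ => 0, fun a => ?_, ?_⟩
      · refine Y.pole v S _ (Pts_on hζ S M' P' β' a) i₀ j₀ (s j₀) (hS j₀) ?_
        rw [hPts]
        exact epoint_inf hζ3 (hα' i₀ j₀) ((hs i₀).hα j₀) hw0 hwz (a i₀ j₀)
      · rw [hPsi]
        simp
  · -- Case A
    have hPts : ∀ a, Pts ζ D S M' P' β' a = fun _ _ => none := by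
      intro a
      unfold Pts
      rw [dif_neg h]
    have hi : ∃ i₀, ¬ ∃ Tw : (Fin n → Om k) × (Fin n → Om k),
        Rw (D.EA S i₀) (D.EB S i₀) (M' i₀) (P' i₀) ⟨1, β' i₀, Tw.1⟩ Tw.2 := by
      by_contra hcon
      push Not at hcon
      apply h
      choose Tw hTw using hcon
      exact ⟨Tw, hTw⟩
    obtain ⟨i₀, hi₀⟩ := hi
    have hPsi : Psi Y ζ s M P l = 0 := by
      by_contra hne
      have hF := Psi_full Y hζ hs hne i₀
      obtain ⟨T', T, h1, h2, -⟩ := cfg_liftU v (hα' i₀) (hB' i₀) (hs i₀) (hM i₀)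
        (hst i₀).deg (hst i₀).q (hst i₀).a0 hF 1 (hβ i₀) (hβv i₀) (hA i₀)
      obtain ⟨w, hw⟩ := exists_Rw hn (hP6 i₀) h1 h2
      exact hi₀ ⟨(T', w), hw⟩
    refine ⟨fun _ => 0, fun a => ?_, ?_⟩
    · refine Y.pole v S _ (Pts_on hζ S M' P' β' a) i₀ ⟨0, hn⟩ (s ⟨0, hn⟩) (hS _) ?_
      rw [hPts]
      trivial
    · rw [hPsi]
      simp

end Pool.Agent.KFam
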