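import Pool.Agent.KFam.Krull
import Pool.Agent.TInf.FamState

/-!
# The states over `Om k`, for an arbitrary base
-/

set_option autoImplicit false

noncomputable section

namespace Pool.Agent.KFam

open Pool.Agent.ZCyc Pool.Agent.TInf Polynomial
open Pool.Agent.VFP (Om tt)

universe u

/-- the equation of a state from its values at `0` and at the `θ j` -/
theorem isSt_of {K : Type*} [Field K] {n : ℕ} {α B : Fin n → K} {M : Mq K} (hd : M.Deg n)
    {θ : Fin n → K} (inj : Function.Injective θ) (ne : ∀ j, θ j ≠ 0)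
    (h0 : M.a.eval 0 = ∏ j, (-B j / 2))
    (h1 : ∀ i, M.a.eval (θ i) ^ 2 + θ i * (M.b.eval (θ i) * M.c.eval (θ i)) +
      θ i * (1 - θ i) * M.t.eval (θ i) ^ 2 =
        ∏ j, ((-B j / 2) ^ 2 - θ i * ((-B j / 2) ^ 2 - α j ^ 3))) : IsSt α B M := by
  refine ⟨hd, ?_, h0⟩
  rw [state_q hd (D := fun j => (-B j / 2) ^ 2 - α j ^ 3) inj ne h0 h1]
  refine Finset.prod_congr rfl fun j _ => ?_
  rw [show (-B j / 2) ^ 2 = (B j / 2) ^ 2 by ring]

variable {k : Type u} [Field k] {n : ℕ}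

/-- The state over `Om k` from the output of `krull`. -/
theorem isSt_mo [CharZero k] {A P M G : k[X][X]} (τ : Om k) {EA EB : Fin n → Om k}
    {θ : Fin n → k} (inj : Function.Injective θ) (ne : ∀ j, θ j ≠ 0)
    (hA : A.degree < (n / 2 + 1 : ℕ)) (hP : P.degree < ((n + 1) / 2 : ℕ))
    (hM : M.degree < ((n + 1) / 2 : ℕ)) (hG : G.degree < (n / 2 : ℕ)) {p0 : k[X]}
    {p1 : Fin n → k[X]} (h0 : A.eval 0 = p0)
    (h1 : ∀ j : Fin n, A.eval (C (θ j)) ^ 2 +
        C (θ j) * (P.eval (C (θ j)) * M.eval (C (θ j))) +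
        C (θ j * (1 - θ j)) * G.eval (C (θ j)) ^ 2 = p1 j)
    (e0 : ∏ j, (-EB j / 2) = aeval τ p0)
    (e1 : ∀ j, ∏ l, ((-EB l / 2) ^ 2 - algebraMap k (Om k) (θ j) *
      ((-EB l / 2) ^ 2 - EA l ^ 3)) = aeval τ (p1 j)) :
    IsSt EA EB (mo τ A P M G) := by
  have hev : ∀ (Q : k[X][X]) (x : k), (Q.map (aeval τ : k[X] →ₐ[k] Om k).toRingHom).eval
      (algebraMap k (Om k) x) = aeval τ (Q.eval (C x)) := fun Q x => pv_eval τ Q x
  refine isSt_of ⟨degree_map_le.trans_lt hA, degree_map_le.trans_lt hP,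
    degree_map_le.trans_lt hM, degree_map_le.trans_lt hG⟩
    (θ := fun j => algebraMap k (Om k) (θ j))
    (fun i j h => inj ((algebraMap k (Om k)).injective h))
    (fun j => (_root_.map_ne_zero _).2 (ne j)) ?_ ?_
  · rw [e0, ← h0]
    have h2 := hev A 0
    rw [map_zero, C_0] at h2
    exact h2
  · intro j
    rw [e1 j, ← h1 j]
    simp only [mo, hev, map_add, map_mul, map_pow, aeval_C, map_sub, map_one]

/-- the assumptions of `krull` for a state over `k` -/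
theorem krull_start {α B : Fin n → k} {M : Mq k} (h : IsSt α B M) (θ : k) :
    M.a.eval θ ^ 2 + θ * (M.b.eval θ * M.c.eval θ) + θ * (1 - θ) * M.t.eval θ ^ 2 =
        ∏ l, ((-B l / 2) ^ 2 - θ * ((-B l / 2) ^ 2 - α l ^ 3)) := by
  have e := congrArg (eval θ) h.q
  unfold Mq.q at e
  simp only [eval_add, eval_mul, eval_pow, eval_X, eval_sub, eval_one, eval_prod, eval_C] at e
  have h2 : ∏ l, ((-B l / 2) ^ 2 - θ * ((-B l / 2) ^ 2 - α l ^ 3)) =
      ∏ l, ((B l / 2) ^ 2 - ((B l / 2) ^ 2 - α l ^ 3) * θ) :=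
    Finset.prod_congr rfl fun l _ => by ring
  rw [h2, ← e]
  ring

end Pool.Agent.KFam
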