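import Pool.Agent.KFam.PsiShift
import Pool.Agent.KFam.PsiFlip
import Pool.Agent.TInf.Clo

/-!
# Symmetries of the class `GG`
-/

set_option autoImplicit false

noncomputable section

namespace Pool.Agent.KFam

open Pool.Agent.ZCyc Pool.Agent.TInf Polynomial
open Pool.Agent.VFP (Om tt)

universe u

variable {k : Type u} [Field k] [IsAlgClosed k] [CharZero k] {r n : ℕ} {D : Base k r}
  {W : Type*} [AddCommGroup W] [Module ℚ W]

/-- change of the frame for the index `i` -/
private theorem gg_flip (Y : SysB D n W) {ζ : k} (hζ : IsPrimitiveRoot ζ 3)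
    {s : Fin n → D.P} (hs : ∀ i, NdU (D.ea s i) (D.eb s i)) {M : Fin r → Mq k}
    {Θ w : Fin r → k} {i : Fin r} {Ξ : k} (hC : Clo (D.ea s i) (M i) Ξ (Θ i) (w i))
    (P : Fin r → k) (l : Fin r → ZMod 3) :
    Psi Y ζ s (Function.update (fun j => (M j).fr ((M j).cT (Θ j) (w j))) i
      ((M i).fr ((M i).cT (Θ i) (-w i)))) P l =
      -Psi Y ζ s (fun j => (M j).fr ((M j).cT (Θ j) (w j))) P l := by
  obtain ⟨h1, h2, h3⟩ := hC.fr_flip
  rw [← h3]
  exact Psi_flip Y hζ hs (fun j => (M j).fr ((M j).cT (Θ j) (w j))) P l i h1 h2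

/-- `Psi_neg` and `Psi_flip` -/
theorem GG_negW (Y : SysB D n W) {ζ : k} (hζ : IsPrimitiveRoot ζ 3) (hn : 0 < n)
    {s : Fin n → D.P} (hs : ∀ i, NdU (D.ea s i) (D.eb s i)) {M : Fin r → Mq k}
    {Θ w : Fin r → k} {i : Fin r} {Ξ : k} (hC : Clo (D.ea s i) (M i) Ξ (Θ i) (w i))
    (l : Fin r → ZMod 3) :
    GG Y ζ s M Θ (Function.update w i (-w i)) l = GG Y ζ s M Θ w l := by
  unfold GG
  have e : (fun j => (M j).fr ((M j).cT (Θ j) (Function.update w i (-w i) j))) =
      Function.update (fun j => (M j).fr ((M j).cT (Θ j) (w j))) i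
        ((M i).fr ((M i).cT (Θ i) (-w i))) := by
    funext j
    by_cases h : j = i
    · subst h
      rw [Function.update_self, Function.update_self]
    · rw [Function.update_of_ne h, Function.update_of_ne h]
  rw [e, gg_flip Y hζ hs hC, Psi_neg Y hζ hn hs, neg_neg]

/-- `Psi_flip` and `cT_neg` -/
theorem GG_negΘ (Y : SysB D n W) {ζ : k} (hζ : IsPrimitiveRoot ζ 3)
    {s : Fin n → D.P} (hs : ∀ i, NdU (D.ea s i) (D.eb s i)) {M : Fin r → Mq k}
    {Θ w : Fin r → k} {i : Fin r} {Ξ : k} (hC : Clo (D.ea s i) (M i) Ξ (Θ i) (w i))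
    (l : Fin r → ZMod 3) :
    GG Y ζ s M (Function.update Θ i (-Θ i)) w l = -GG Y ζ s M Θ w l := by
  unfold GG
  have e : (fun j => (M j).fr ((M j).cT (Function.update Θ i (-Θ i) j) (w j))) =
      Function.update (fun j => (M j).fr ((M j).cT (Θ j) (w j))) i
        ((M i).fr ((M i).cT (Θ i) (-w i))) := by
    funext j
    by_cases h : j = i
    · subst h
      rw [Function.update_self, Function.update_self, cT_neg]
    · rw [Function.update_of_ne h, Function.update_of_ne h]
  rw [e, gg_flip Y hζ hs hC]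

private theorem gg_ite {K : Type*} {J : Finset (Fin r)} {i : Fin r} (a b : Fin r → K) :
    (fun j => if j ∈ insert i J then a j else b j) =
      Function.update (fun j => if j ∈ J then a j else b j) i (a i) := by
  funext j
  by_cases h : j = i
  · subst h
    rw [Function.update_self, if_pos (Finset.mem_insert_self j J)]
  · rw [Function.update_of_ne h]
    simp only [Finset.mem_insert, h, false_or]

/-- change of signs of the `Θ i` and of the `w i`: induction over the set of the indices where the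
values differ. The number of the changes of signs of the `Θ i` is even by `h3`, `h4`. -/
theorem GG_signs (Y : SysB D n W) {ζ : k} (hζ : IsPrimitiveRoot ζ 3) (hn : 0 < n)
    {s : Fin n → D.P} (hs : ∀ i, NdU (D.ea s i) (D.eb s i)) {M : Fin r → Mq k}
    {Θ w Ξ Θ' w' : Fin r → k} (hC : ∀ i, Clo (D.ea s i) (M i) (Ξ i) (Θ i) (w i))
    (h1 : ∀ i, Θ' i = Θ i ∨ Θ' i = -Θ i) (h2 : ∀ i, w' i = w i ∨ w' i = -w i)
    (h3 : ∏ i, Θ' i = ∏ i, Θ i) (h4 : ∏ i, Θ i ≠ 0) (l : Fin r → ZMod 3) :
    GG Y ζ s M Θ' w' l = GG Y ζ s M Θ w l := by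
  have hw : ∀ J : Finset (Fin r),
      GG Y ζ s M Θ (fun j => if j ∈ J then w' j else w j) l = GG Y ζ s M Θ w l := by
    intro J
    induction J using Finset.induction_on with
    | empty => simp
    | insert i J hi ih =>
      rw [gg_ite, ← ih]
      have hv : (if i ∈ J then w' i else w i) = w i := if_neg hi
      rcases h2 i with h | h
      · rw [h]
        conv_lhs => rw [← hv]
        rw [Function.update_eq_self i fun j => if j ∈ J then w' j else w j]
      · rw [h]
        conv_lhs => rw [← hv]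
        refine GG_negW Y hζ hn hs (Ξ := Ξ i) (w := fun j => if j ∈ J then w' j else w j) ?_ l
        show Clo (D.ea s i) (M i) (Ξ i) (Θ i) (if i ∈ J then w' i else w i)
        rw [hv]
        exact hC i
  have hC' : ∀ i, Clo (D.ea s i) (M i) (Ξ i) (Θ i) (w' i) := by
    intro i
    rcases h2 i with h | h
    · rw [h]
      exact hC i
    · rw [h]
      exact (hC i).negW
  have hw1 := hw Finset.univ
  simp only [Finset.mem_univ, if_true] at hw1
  rw [← hw1]
  have he : ∀ i, ∃ e : ℤ, (e = 1 ∧ Θ' i = Θ i) ∨ (e = -1 ∧ Θ' i = -Θ i) := by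
    intro i
    rcases h1 i with h | h
    · exact ⟨1, Or.inl ⟨rfl, h⟩⟩
    · exact ⟨-1, Or.inr ⟨rfl, h⟩⟩
  choose e he using he
  have hΘ : ∀ J : Finset (Fin r),
      GG Y ζ s M (fun j => if j ∈ J then Θ' j else Θ j) w' l =
        (∏ i ∈ J, e i) • GG Y ζ s M Θ w' l := by
    intro J
    induction J using Finset.induction_on with
    | empty => simp
    | insert i J hi ih =>
      rw [gg_ite, Finset.prod_insert hi, mul_smul, ← ih]
      have hv : (if i ∈ J then Θ' i else Θ i) = Θ i := if_neg hi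
      rcases he i with ⟨h, h'⟩ | ⟨h, h'⟩
      · rw [h, h', one_smul]
        conv_lhs => rw [← hv]
        rw [Function.update_eq_self i fun j => if j ∈ J then Θ' j else Θ j]
      · rw [h, h', neg_smul, one_smul]
        conv_lhs => rw [← hv]
        refine GG_negΘ Y hζ hs (Ξ := Ξ i) (Θ := fun j => if j ∈ J then Θ' j else Θ j) ?_ l
        show Clo (D.ea s i) (M i) (Ξ i) (if i ∈ J then Θ' i else Θ i) (w' i)
        rw [hv]
        exact hC' i
  have hΘ1 := hΘ Finset.univ
  simp only [Finset.mem_univ, if_true] at hΘ1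
  rw [hΘ1]
  have h5 : ∏ i, Θ' i = ((∏ i, e i : ℤ) : k) * ∏ i, Θ i := by
    rw [Int.cast_prod, ← Finset.prod_mul_distrib]
    refine Finset.prod_congr rfl fun i _ => ?_
    rcases he i with ⟨h, h'⟩ | ⟨h, h'⟩
    · rw [h, h', Int.cast_one, one_mul]
    · rw [h, h', Int.cast_neg, Int.cast_one, neg_one_mul]
  rw [h3] at h5
  have h6 : ((∏ i, e i : ℤ) : k) = ((1 : ℤ) : k) := by
    rw [Int.cast_one]
    exact (mul_right_cancel₀ h4 (by rw [one_mul]; exact h5)).symm
  rw [Int.cast_injective h6, one_smul]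

end Pool.Agent.KFam
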