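import Pool.Agent.KFam.FamEnd
import Pool.Agent.KFam.GGStart
import Pool.Agent.TInf.GGEnd

/-!
# The value of the family at the end
-/

set_option autoImplicit false

noncomputable section

namespace Pool.Agent.KFam

open Pool.Agent.ZCyc Pool.Agent.TInf Polynomial
open Pool.Agent.VFP (Om tt)

universe u

variable {k : Type u} [Field k] [IsAlgClosed k] [CharZero k] {r n : ℕ} {D : Base k r}
  {W : Type*} [AddCommGroup W] [Module ℚ W]

/-- The value at a place where `τ` has a pole, if `h = 0` (all points `S j` are constant): if one of the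
values would not be zero then for every `i` the state `famM .. i` and `w' (κ i) i` would be bounded by
`Pts_end`, and everything would be constant by `const_of_bounded`. -/
theorem GG_end (Y : SysB D n W) {ζ : k} (hζ : IsPrimitiveRoot ζ 3) (hn : 0 < n)
    {s : Fin n → D.P} (hs : D.Gen s) {M : Fin r → Mq k} {Ξ Θ : Fin r → k}
    (hne : ∀ i, (M i).b.eval 1 * (M i).c.eval 1 ≠ 0) {v : Place k (Om k)} {τ : Om k}
    (hτ : τ ∉ v.ring) {A' P' M' G' : Fin r → k[X][X]} {x' : Fin r → k[X]}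
    (hA : ∀ i, (A' i).map (evalRingHom 0) = (M i).a)
    (hP : ∀ i, (P' i).map (evalRingHom 0) = (M i).b)
    (hM : ∀ i, (M' i).map (evalRingHom 0) = (M i).c)
    (hG : ∀ i, (G' i).map (evalRingHom 0) = (M i).t) (hx : ∀ i, (x' i).eval 0 = Ξ i)
    (hnc : ¬ ∀ i, A' i = ((M i).a).map C ∧ P' i = ((M i).b).map C ∧ M' i = ((M i).c).map C ∧
        G' i = ((M i).t).map C ∧ x' i = C (Ξ i))
    {S : Fin n → D.Q} (hS : S = fun j => D.cst (s j))
    (hSt : ∀ i, IsSt (D.EA S i) (D.EB S i) (mo τ (A' i) (P' i) (M' i) (G' i)))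
    {Θ' : Fin r → Om k} {w' : Bool → Fin r → Om k}
    (hC : ∀ b i, Clo (D.EA S i) (mo τ (A' i) (P' i) (M' i) (G' i)) (aeval τ (x' i)) (Θ' i)
      (w' b i))
    {β' : Fin r → Fin n → Om k} (hβ : ∀ i j, β' i j ^ 2 = D.EA S i j ^ 3)
    (x : (Fin r → Bool) × (Fin r → Fin n → ZMod 3)) :
    Y.Val v S (Pts ζ D S (famM (fun i => mo τ (A' i) (P' i) (M' i) (G' i)) Θ' w' x.1)
      (fun i => w' (x.1 i) i) β' x.2) 0 := by
  subst hS
  by_contra hV
  apply hnc
  intro i
  have hev : ∀ (i : Fin r) (j : Fin n), D.EA (fun j => D.cst (s j)) i j =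
      algebraMap k (Om k) (D.ea s i j) := fun i j => D.cst_al (s j) i
  have h1 : PIn v (famM (fun i => mo τ (A' i) (P' i) (M' i) (G' i)) Θ' w' x.1 i).a ∧
      PIn v (famM (fun i => mo τ (A' i) (P' i) (M' i) (G' i)) Θ' w' x.1 i).b ∧
      PIn v (famM (fun i => mo τ (A' i) (P' i) (M' i) (G' i)) Θ' w' x.1 i).c ∧
      PIn v (famM (fun i => mo τ (A' i) (P' i) (M' i) (G' i)) Θ' w' x.1 i).t ∧
      w' (x.1 i) i ∈ v.ring ∧ (w' (x.1 i) i)⁻¹ ∈ v.ring := by
    by_contra h2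
    exact hV (Pts_end (P' := fun i => w' (x.1 i) i) Y hζ hn hs.nd hβ (i := i) h2 x.2)
  have hCi := hC (x.1 i) i
  have hc0 : (mo τ (A' i) (P' i) (M' i) (G' i)).c.eval 1 ≠ 0 := right_ne_zero_of_mul hCi.ne
  have hT0 := hCi.cT_ne
  have hρ : -((mo τ (A' i) (P' i) (M' i) (G' i)).c.eval 1) /
      (mo τ (A' i) (P' i) (M' i) (G' i)).cT (Θ' i) (w' (x.1 i) i) ≠ 0 :=
    div_ne_zero (neg_ne_zero.2 hc0) hT0
  have h3 := const_of_bounded (v := v) hτ (A := A' i) (P := P' i) (M := M' i) (G := G' i)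
    (x := x' i) (w := w' (x.1 i) i) hρ (γ := ∏ j, D.ea s i j) (δ := ∏ j, D.ea s i j ^ 3)
    h1.1 h1.2.1 h1.2.2.1 h1.2.2.2.1 h1.2.2.2.2.1 h1.2.2.2.2.2 hCi.W0 (by
      have h4 := hCi.xi
      simp only [hev] at h4
      rw [map_prod]
      exact h4) (by
      have h4 := hCi.bc
      simp only [hev] at h4
      rw [map_prod]
      simp only [map_pow]
      exact h4) (by
      rw [hP i, hM i]
      exact hne i)
  rw [hA i, hP i, hM i, hG i, hx i] at h3
  exact h3

end Pool.Agent.KFam
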