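import Pool.Agent.KFam.PsiEq

/-!
# Change of the products of the sixth roots
-/

set_option autoImplicit false

noncomputable section

namespace Pool.Agent.KFam

open Pool.Agent.ZCyc Pool.Agent.TInf Polynomial
open Pool.Agent.VFP (Om tt)

universe u

variable {k : Type u} [Field k] [IsAlgClosed k] [CharZero k] {r n : ℕ} {D : Base k r}
  {W : Type*} [AddCommGroup W] [Module ℚ W]

omit [IsAlgClosed k] [CharZero k] in
private theorem PsiShift_none (Y : SysB D n W) {ζ : k} {s : Fin n → D.P} {M : Fin r → Mq k}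
    {P : Fin r → k} (h : ¬ ∃ cw : Fin r → Cfg k n × (Fin n → k),
      ∀ i, Rz (D.ea s i) (D.eb s i) (M i) (P i) (cw i).1 (cw i).2) (l : Fin r → ZMod 3) :
    Psi Y ζ s M P l = 0 := by
  unfold Psi
  rw [dif_neg h]

omit [IsAlgClosed k] [CharZero k] in
/-- multiply `w i j` by a sixth root of unity -/
private theorem PsiShift_mul {s : Fin n → D.P} {M : Fin r → Mq k}
    {P : Fin r → k} {c : Fin r → Cfg k n} {w : Fin r → Fin n → k}
    (h : ∀ i, Rz (D.ea s i) (D.eb s i) (M i) (P i) (c i) (w i)) {e : k} (he : e ^ 6 = 1)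
    (i : Fin r) (j : Fin n) :
    ∀ i', Rz (D.ea s i') (D.eb s i') (M i') (Function.update P i (e * P i) i') (c i')
      (Function.update w i (Function.update (w i) j (e * w i j)) i') := by
  intro i'
  by_cases hi : i' = i
  · subst hi
    rw [Function.update_self, Function.update_self]
    refine ⟨⟨(h i').good, (h i').st, ?_, ?_⟩, (h i').adm⟩
    · intro j'
      by_cases hj : j' = j
      · subst hj
        rw [Function.update_self, mul_pow, he, one_mul]
        exact (h i').w6 j'
      · rw [Function.update_of_ne hj]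
        exact (h i').w6 j'
    · rw [← (h i').prod, Finset.prod_update_of_mem (Finset.mem_univ j), mul_assoc]
      congr 1
      rw [← Finset.mul_prod_erase _ _ (Finset.mem_univ j), Finset.sdiff_singleton_eq_erase]
  · rw [Function.update_of_ne hi, Function.update_of_ne hi]
    exact h i'

omit [IsAlgClosed k] [CharZero k] in
private theorem PsiShift_ex {s : Fin n → D.P} {M : Fin r → Mq k}
    {P : Fin r → k} (j : Fin n) {e e' : k} (he : e' ^ 6 = 1) (hee : e' * e = 1) (i : Fin r)
    (h : ∃ cw : Fin r → Cfg k n × (Fin n → k),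
      ∀ i', Rz (D.ea s i') (D.eb s i') (M i') (Function.update P i (e * P i) i')
        (cw i').1 (cw i').2) :
    ∃ cw : Fin r → Cfg k n × (Fin n → k),
      ∀ i', Rz (D.ea s i') (D.eb s i') (M i') (P i') (cw i').1 (cw i').2 := by
  obtain ⟨cw, h⟩ := h
  have h1 := PsiShift_mul (c := fun i' => (cw i').1) (w := fun i' => (cw i').2) h he i j
  have h2 : Function.update (Function.update P i (e * P i)) i
      (e' * Function.update P i (e * P i) i) = P := by
    rw [Function.update_self, Function.update_idem, ← mul_assoc, hee, one_mul,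
      Function.update_eq_self]
  rw [h2] at h1
  exact ⟨fun i' => ((cw i').1, Function.update (fun i' => (cw i').2) i
    (Function.update ((cw i).2) j (e' * (cw i).2 j)) i'), h1⟩

/-- multiply one `w i j` by `-1`: `Sl_neg` -/
theorem Psi_neg (Y : SysB D n W) {ζ : k} (hζ : IsPrimitiveRoot ζ 3) (hn : 0 < n)
    {s : Fin n → D.P} (hs : ∀ i, NdU (D.ea s i) (D.eb s i)) (M : Fin r → Mq k) (P : Fin r → k)
    (l : Fin r → ZMod 3) (i : Fin r) :
    Psi Y ζ s M (Function.update P i (-P i)) l = -Psi Y ζ s M P l := by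
  classical
  have hP : -P i = (-1) * P i := by ring
  rw [hP]
  set j : Fin n := ⟨0, hn⟩
  by_cases h : ∃ cw : Fin r → Cfg k n × (Fin n → k),
      ∀ i, Rz (D.ea s i) (D.eb s i) (M i) (P i) (cw i).1 (cw i).2
  · obtain ⟨cw, h⟩ := h
    have h1 := PsiShift_mul (c := fun i' => (cw i').1) (w := fun i' => (cw i').2) h
      (e := -1) (by ring) i j
    rw [Psi_eq Y hζ hs h1, Psi_eq Y hζ hs (c := fun i' => (cw i').1)
      (w := fun i' => (cw i').2) h, ← smul_neg]
    congr 1
    rw [MSl_eq i, MSl_eq i, Function.update_self]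
    have h2 : -1 * (cw i).2 j = -(cw i).2 j := by ring
    rw [h2, Sl_neg (MSo_class (Y.multi s) i ζ _ _ l)]
    rw [MSo_update i (Y.F s) ζ (D.ea s) _
      (fun i' => (cw i').1.side (D.eb s i')) _ (fun i' => (cw i').2) l l (fun _ _ => rfl)
      (fun i' hi' => Function.update_of_ne hi' _ _) (fun _ _ => rfl)]
  · rw [PsiShift_none Y h, PsiShift_none Y fun h' => h (PsiShift_ex j (e := -1) (e' := -1)
      (by ring) (by ring) i h'), neg_zero]

/-- multiply one `w i j` by `ζ`: `Sl_shift` -/
theorem Psi_shift (Y : SysB D n W) {ζ : k} (hζ : IsPrimitiveRoot ζ 3) (hn : 0 < n)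
    {s : Fin n → D.P} (hs : ∀ i, NdU (D.ea s i) (D.eb s i)) (M : Fin r → Mq k) (P : Fin r → k)
    (l : Fin r → ZMod 3) (i : Fin r) :
    Psi Y ζ s M (Function.update P i (ζ * P i)) l =
      Psi Y ζ s M P (Function.update l i (l i + 2)) := by
  classical
  have h3 : ζ ^ 3 = 1 := hζ.pow_eq_one
  set j : Fin n := ⟨0, hn⟩
  by_cases h : ∃ cw : Fin r → Cfg k n × (Fin n → k),
      ∀ i, Rz (D.ea s i) (D.eb s i) (M i) (P i) (cw i).1 (cw i).2
  · obtain ⟨cw, h⟩ := h
    have h1 := PsiShift_mul (c := fun i' => (cw i').1) (w := fun i' => (cw i').2) h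
      (e := ζ) (by linear_combination (ζ ^ 3 + 1) * h3) i j
    rw [Psi_eq Y hζ hs h1, Psi_eq Y hζ hs (c := fun i' => (cw i').1)
      (w := fun i' => (cw i').2) h]
    congr 1
    rw [MSl_eq i, MSl_eq i, Function.update_self, Function.update_self,
      Sl_shift (MSo_class (Y.multi s) i ζ _ _ l) hζ]
    rw [MSo_update i (Y.F s) ζ (D.ea s) _
      (fun i' => (cw i').1.side (D.eb s i')) _ (fun i' => (cw i').2) l
      (Function.update l i (l i + 2)) (fun _ _ => rfl)
      (fun i' hi' => Function.update_of_ne hi' _ _)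
      (fun i' hi' => (Function.update_of_ne hi' _ _).symm)]
  · rw [PsiShift_none Y h, PsiShift_none Y fun h' => h (PsiShift_ex j (e := ζ) (e' := ζ ^ 2)
      (by linear_combination (ζ ^ 9 + ζ ^ 6 + ζ ^ 3 + 1) * h3)
      (by linear_combination h3) i h')]

/-- `sum_MSl` -/
theorem Psi_sum (Y : SysB D n W) {ζ : k} (hζ : IsPrimitiveRoot ζ 3) (hn : 0 < n)
    {s : Fin n → D.P} (hs : ∀ i, NdU (D.ea s i) (D.eb s i)) (M : Fin r → Mq k) (P : Fin r → k)
    (l : Fin r → ZMod 3) (i : Fin r) :
    ∑ x : ZMod 3, Psi Y ζ s M P (Function.update l i x) = 0 := by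
  by_cases h : ∃ cw : Fin r → Cfg k n × (Fin n → k),
      ∀ i, Rz (D.ea s i) (D.eb s i) (M i) (P i) (cw i).1 (cw i).2
  · obtain ⟨cw, h⟩ := h
    rw [Finset.sum_congr rfl fun x _ => Psi_eq Y hζ hs (c := fun i' => (cw i').1)
      (w := fun i' => (cw i').2) h (Function.update l i x), ← Finset.smul_sum,
      sum_MSl (Y.multi s) hn hζ i, smul_zero]
    · intro j
      exact (h i).good.2 j
    · intro j
      simp only [Cfg.side]
      ring
    · intro j
      simp only [Cfg.side]
      rw [← (h i).good.1 j]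
      ring
    · intro j
      exact (hs i).hα j
    · intro j
      exact (h i).w6 j
  · exact Finset.sum_eq_zero fun x _ => PsiShift_none Y h _

end Pool.Agent.KFam
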